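import Pool.Agent.H547U3.Defs
import Pool.Agent.H547R8.T_DRC
import Pool.Agent.H547R9.T_REN
import Pool.Agent.H547S1.T_GDM

/-!
# Deterministic cellular automata over non-affine monotone gate sets
-/

set_option autoImplicit false

namespace Pool.Agent.H547U3

open Pool.Agent.H547R6 Pool.Agent.H547R7 Pool.Agent.H547R8 Pool.Agent.H547R9 Pool.Agent.NPC
  Pool.Agent.H547S1

/-- the encoded state: the bits, their complements and the two constants -/
def DUA_E {K : ℕ} (c : Fin K → Bool) : Fin (K + K + 2) → Bool :=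
  Fin.append (Fin.append c fun i => !c i) ![false, true]

/-- index of a bit -/
def DUA_ia {K : ℕ} (i : Fin K) : Fin (K + K + 2) := Fin.castAdd 2 (Fin.castAdd K i)

/-- index of the complement of a bit -/
def DUA_ib {K : ℕ} (i : Fin K) : Fin (K + K + 2) := Fin.castAdd 2 (Fin.natAdd K i)

theorem DUA_E_ia {K : ℕ} (c : Fin K → Bool) (i : Fin K) : DUA_E c (DUA_ia i) = c i := by
  unfold DUA_E DUA_ia
  rw [Fin.append_left, Fin.append_left]

theorem DUA_E_ib {K : ℕ} (c : Fin K → Bool) (i : Fin K) : DUA_E c (DUA_ib i) = !c i := by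
  unfold DUA_E DUA_ib
  rw [Fin.append_left, Fin.append_right]

theorem DUA_E_0 {K : ℕ} (c : Fin K → Bool) : DUA_E c (Fin.natAdd (K + K) 0) = false := by
  unfold DUA_E
  rw [Fin.append_right]
  rfl

theorem DUA_E_1 {K : ℕ} (c : Fin K → Bool) : DUA_E c (Fin.natAdd (K + K) 1) = true := by
  unfold DUA_E
  rw [Fin.append_right]
  rfl

/-- the neighbourhood -/
def DUA_nb {N g : ℕ} (l c r : Fin N → Bool) (γ : Fin g → Bool) : Fin (N + N + N + g) → Bool :=
  Fin.append (Fin.append (Fin.append l c) r) γ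

/-- index of a bit of the middle cell -/
def DUA_md {N : ℕ} (i : Fin N) : Fin (N + N + N + 0) :=
  Fin.castAdd 0 (Fin.castAdd N (Fin.natAdd N i))

theorem DUA_nb_md {N : ℕ} (l c r : Fin N → Bool) (γ : Fin 0 → Bool) (i : Fin N) :
    DUA_nb l c r γ (DUA_md i) = c i := by
  unfold DUA_nb DUA_md
  rw [Fin.append_left, Fin.append_left, Fin.append_right]

/-- map between the indices of neighbourhoods -/
def DUA_ph {K N : ℕ} (f : Fin K → Fin N) : Fin (K + K + K + 0) → Fin (N + N + N + 0) :=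
  Fin.append (Fin.append (Fin.append
    (fun i => Fin.castAdd 0 (Fin.castAdd N (Fin.castAdd N (f i))))
    (fun i => Fin.castAdd 0 (Fin.castAdd N (Fin.natAdd N (f i)))))
    (fun i => Fin.castAdd 0 (Fin.natAdd (N + N) (f i)))) Fin.elim0

theorem DUA_nb_ph {K N : ℕ} (f : Fin K → Fin N) (l c r : Fin N → Bool) (γ : Fin 0 → Bool)
    (j : Fin (K + K + K + 0)) :
    DUA_nb l c r γ (DUA_ph f j) =
      DUA_nb (fun i => l (f i)) (fun i => c (f i)) (fun i => r (f i)) γ j := by
  unfold DUA_nb DUA_ph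
  refine Fin.addCases (fun j => ?_) (fun j => j.elim0) j
  rw [Fin.append_left, Fin.append_left]
  refine Fin.addCases (fun j => ?_) (fun j => ?_) j
  · rw [Fin.append_left, Fin.append_left]
    refine Fin.addCases (fun j => ?_) (fun j => ?_) j
    · rw [Fin.append_left, Fin.append_left, Fin.append_left, Fin.append_left, Fin.append_left]
    · rw [Fin.append_right, Fin.append_right, Fin.append_left, Fin.append_left, Fin.append_right]
  · rw [Fin.append_right, Fin.append_right, Fin.append_left, Fin.append_right]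

theorem DUA_nb_not {K : ℕ} (l c r : Fin K → Bool) (γ γ' : Fin 0 → Bool)
    (j : Fin (K + K + K + 0)) :
    DUA_nb (fun i => !l i) (fun i => !c i) (fun i => !r i) γ j = !DUA_nb l c r γ' j := by
  unfold DUA_nb
  refine Fin.addCases (fun j => ?_) (fun j => j.elim0) j
  rw [Fin.append_left, Fin.append_left]
  refine Fin.addCases (fun j => ?_) (fun j => ?_) j
  · rw [Fin.append_left, Fin.append_left]
    refine Fin.addCases (fun j => ?_) (fun j => ?_) j
    · rw [Fin.append_left, Fin.append_left]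
    · rw [Fin.append_right, Fin.append_right]
  · rw [Fin.append_right, Fin.append_right]

theorem DUA_fr (n : ℕ) (C : BF n) (z : Fin (n + n) → Bool) (a : Fin n → Bool)
    (h1 : ∀ i, z (Fin.castAdd n i) = a i) (h2 : ∀ i, z (Fin.natAdd n i) = !a i) :
    FR n C z = C a := by
  unfold FR fnd
  have e1 : (fun i => z (Fin.castAdd n i)) = a := funext h1
  have e2 : (fun i => z (Fin.natAdd n i)) = fun i => !a i := funext h2
  rw [e1, e2]
  have : (List.ofFn fun i => (a i, !a i)).filter (fun p => p.1 == p.2) = [] := by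
    rw [List.filter_eq_nil_iff]
    intro p hp
    rw [List.mem_ofFn] at hp
    obtain ⟨i, rfl⟩ := hp
    cases a i <;> simp
  simp only [h1, h2] at *
  rw [this]
  rfl

theorem DUA_Tf (τ : Fin 3) (c c' : Bool) : Tf τ false true c c' = c := by
  unfold Tf
  split_ifs <;> simp_all

/-- map from the indices of the gadget -/
def DUA_si (K : ℕ) : Fin ((K + K + K + 0) + (K + K + K + 0) + 2) →
    Fin ((K + K + 2) + (K + K + 2) + (K + K + 2) + 0) :=
  Fin.cons (DUA_md (Fin.natAdd (K + K) 0)) (Fin.cons (DUA_md (Fin.natAdd (K + K) 1))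
    (Fin.append (DUA_ph DUA_ia) (DUA_ph DUA_ib)))

/-- the new rule for a bit -/
def DUA_G (τ : Fin 3) {K : ℕ} (R : BF (K + K + K + 0)) :
    BF ((K + K + 2) + (K + K + 2) + (K + K + 2) + 0) := fun z =>
  Tf τ (z (DUA_si K 0)) (z (DUA_si K 1))
    (FR (K + K + K + 0) R fun i => z (DUA_si K i.succ.succ))
    (FR (K + K + K + 0) R fun i => !z (DUA_si K i.succ.succ))

theorem DUA_G_eq (τ : Fin 3) {K : ℕ} (R : BF (K + K + K + 0)) (l c r : Fin K → Bool)
    (γ γ' : Fin 0 → Bool) :
    DUA_G τ R (DUA_nb (DUA_E l) (DUA_E c) (DUA_E r) γ) = R (DUA_nb l c r γ') := by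
  unfold DUA_G
  have h0 : DUA_nb (DUA_E l) (DUA_E c) (DUA_E r) γ (DUA_si K 0) = false := by
    show DUA_nb (DUA_E l) (DUA_E c) (DUA_E r) γ (DUA_md (Fin.natAdd (K + K) 0)) = false
    rw [DUA_nb_md, DUA_E_0]
  have h1 : DUA_nb (DUA_E l) (DUA_E c) (DUA_E r) γ (DUA_si K 1) = true := by
    show DUA_nb (DUA_E l) (DUA_E c) (DUA_E r) γ (DUA_md (Fin.natAdd (K + K) 1)) = true
    rw [DUA_nb_md, DUA_E_1]
  rw [h0, h1, DUA_Tf]
  apply DUA_fr
  · intro i
    show DUA_nb (DUA_E l) (DUA_E c) (DUA_E r) γ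
      (Fin.append (DUA_ph DUA_ia) (DUA_ph DUA_ib) (Fin.castAdd _ i)) = _
    rw [Fin.append_left, DUA_nb_ph]
    simp only [DUA_E_ia]
    congr 1
    exact Subsingleton.elim _ _
  · intro i
    show DUA_nb (DUA_E l) (DUA_E c) (DUA_E r) γ
      (Fin.append (DUA_ph DUA_ia) (DUA_ph DUA_ib) (Fin.natAdd _ i)) = _
    rw [Fin.append_right, DUA_nb_ph]
    simp only [DUA_E_ib]
    exact DUA_nb_not l c r γ γ' i

theorem DUA_G_comp (h : X_EXC) (B : Set BFun) (τ : Fin 3) (hB : Op3 B (Gm τ)) {K : ℕ}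
    (hK : 1 ≤ K) (R : BF (K + K + K + 0)) : ∃ s, Computes B _ s (DUA_G τ R) := by
  obtain ⟨s, hs⟩ := h (K + K + K + 0) R (by omega)
  have h1 := t_DRC _ _ _ hs
  obtain ⟨c, hc⟩ := t_GDM B τ hB
  have h2 := hc _ _ _ h1
  exact ⟨_, t_REN.1 B _ _ _ (DUA_si K) _ h2⟩

/-- the new rule -/
def DUA_rule (τ : Fin 3) {K : ℕ} (rule : Fin K → BF (K + K + K + 0)) : Fin (K + K + 2) →
    BF ((K + K + 2) + (K + K + 2) + (K + K + 2) + 0) :=
  Fin.append (Fin.append (fun i => DUA_G τ (rule i)) (fun i => DUA_G τ fun x => !rule i x))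
    ![fun z => z (DUA_md (Fin.natAdd (K + K) 0)), fun z => z (DUA_md (Fin.natAdd (K + K) 1))]

theorem DUA_rule_eq (τ : Fin 3) {K : ℕ} (rule : Fin K → BF (K + K + K + 0))
    (l c r : Fin K → Bool) (γ γ' : Fin 0 → Bool) :
    (fun i => DUA_rule τ rule i (DUA_nb (DUA_E l) (DUA_E c) (DUA_E r) γ)) =
      DUA_E fun i => rule i (DUA_nb l c r γ') := by
  funext i
  refine Fin.addCases (fun j => ?_) (fun j => ?_) i
  · refine Fin.addCases (fun j => ?_) (fun j => ?_) j
    · show DUA_rule τ rule (Fin.castAdd 2 (Fin.castAdd K j)) _ = _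
      unfold DUA_rule
      rw [Fin.append_left, Fin.append_left, DUA_G_eq τ (rule j) l c r γ γ']
      exact (DUA_E_ia (fun i => rule i (DUA_nb l c r γ')) j).symm
    · show DUA_rule τ rule (Fin.castAdd 2 (Fin.natAdd K j)) _ = _
      unfold DUA_rule
      rw [Fin.append_left, Fin.append_right, DUA_G_eq τ _ l c r γ γ']
      exact (DUA_E_ib (fun i => rule i (DUA_nb l c r γ')) j).symm
  · show DUA_rule τ rule (Fin.natAdd (K + K) j) _ = _
    unfold DUA_rule
    rw [Fin.append_right]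
    have hj : j = 0 ∨ j = 1 := by fin_cases j <;> simp
    rcases hj with rfl | rfl
    · rw [DUA_E_0]
      show DUA_nb _ _ _ γ (DUA_md (Fin.natAdd (K + K) 0)) = false
      rw [DUA_nb_md, DUA_E_0]
    · rw [DUA_E_1]
      show DUA_nb _ _ _ γ (DUA_md (Fin.natAdd (K + K) 1)) = true
      rw [DUA_nb_md, DUA_E_1]

/-- the new automaton -/
def DUA_CA (τ : Fin 3) (k : ℕ) (rule : Fin (k + 1) → BF ((k + 1) + (k + 1) + (k + 1) + 0))
    (enc : Bool → Fin (k + 1) → Bool) (blank lb rb : Fin (k + 1) → Bool) : CA where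
  k := (k + 1) + (k + 1) + 1
  g := 0
  rule := DUA_rule τ rule
  enc b := DUA_E (enc b)
  blank := DUA_E blank
  lb := DUA_E lb
  rb := DUA_E rb

theorem DUA_run (τ : Fin 3) (k : ℕ)
    (rule : Fin (k + 1) → BF ((k + 1) + (k + 1) + (k + 1) + 0))
    (enc : Bool → Fin (k + 1) → Bool) (blank lb rb : Fin (k + 1) → Bool) (m : ℕ)
    (w : List Bool) (γ γ' : ℕ → ℕ → Fin 0 → Bool) (t p : ℕ) :
    (DUA_CA τ k rule enc blank lb rb).run m w γ t p =
      DUA_E ((CA.mk k 0 rule enc blank lb rb).run m w γ' t p) := by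
  induction t generalizing p with
  | zero =>
    show (w[p]?).elim (DUA_E blank) (fun b => DUA_E (enc b)) =
      DUA_E ((w[p]?).elim blank enc)
    cases w[p]? <;> rfl
  | succ t ih =>
    have hl : (if p = 0 then DUA_E lb else
        (DUA_CA τ k rule enc blank lb rb).run m w γ t (p - 1)) =
        DUA_E (if p = 0 then lb else
          (CA.mk k 0 rule enc blank lb rb).run m w γ' t (p - 1)) := by
      by_cases hp : p = 0
      · exact (if_pos hp).trans (congrArg DUA_E (if_pos hp).symm)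
      · exact (if_neg hp).trans ((ih _).trans (congrArg DUA_E (if_neg hp).symm))
    have hr : (if p + 1 < m then (DUA_CA τ k rule enc blank lb rb).run m w γ t (p + 1) else
        DUA_E rb) =
        DUA_E (if p + 1 < m then (CA.mk k 0 rule enc blank lb rb).run m w γ' t (p + 1)
          else rb) := by
      by_cases hp : p + 1 < m
      · exact (if_pos hp).trans ((ih _).trans (congrArg DUA_E (if_pos hp).symm))
      · exact (if_neg hp).trans (congrArg DUA_E (if_neg hp).symm)
    refine Eq.trans ?_ (DUA_rule_eq τ rule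
      (if p = 0 then lb else (CA.mk k 0 rule enc blank lb rb).run m w γ' t (p - 1))
      ((CA.mk k 0 rule enc blank lb rb).run m w γ' t p)
      (if p + 1 < m then (CA.mk k 0 rule enc blank lb rb).run m w γ' t (p + 1) else rb)
      (γ t p) (γ' t p))
    rw [← hl, ← hr, ← ih p]
    rfl

theorem x_DUA (h : X_EXC) : X_DUA := by
  rintro B τ hB S T L ⟨A, hg, hA, hL⟩
  obtain ⟨k, g, rule, enc, blank, lb, rb⟩ := A
  simp only at hg
  subst hg
  refine ⟨DUA_CA τ k rule enc blank lb rb, rfl, ?_, ?_⟩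
  · intro i
    show ∃ s, Computes B _ s (DUA_rule τ rule i)
    refine Fin.addCases (m := (k + 1) + (k + 1)) (n := 2) (fun j => ?_) (fun j => ?_) i
    · refine Fin.addCases (fun j => ?_) (fun j => ?_) j
      · unfold DUA_rule
        rw [Fin.append_left, Fin.append_left]
        exact DUA_G_comp h B τ hB (by omega) _
      · unfold DUA_rule
        rw [Fin.append_left, Fin.append_right]
        exact DUA_G_comp h B τ hB (by omega) _
    · unfold DUA_rule
      rw [Fin.append_right]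
      have hj : j = 0 ∨ j = 1 := by fin_cases j <;> simp
      rcases hj with rfl | rfl
      · exact ⟨0, [], Gates.nil, le_rfl, Or.inr ⟨_, rfl⟩⟩
      · exact ⟨0, [], Gates.nil, le_rfl, Or.inr ⟨_, rfl⟩⟩
  · intro w
    rw [hL w]
    unfold CA.Acc
    constructor
    · rintro ⟨t, ht, γ, hγ⟩
      refine ⟨t, ht, fun _ _ => Fin.elim0, ?_⟩
      have := DUA_run τ k rule enc blank lb rb (S w.length) w (fun _ _ => Fin.elim0) γ t 0
      rw [this]
      exact (DUA_E_ia _ _).trans hγ
    · rintro ⟨t, ht, γ, hγ⟩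
      refine ⟨t, ht, fun _ _ => Fin.elim0, ?_⟩
      have := DUA_run τ k rule enc blank lb rb (S w.length) w γ (fun _ _ => Fin.elim0) t 0
      rw [this] at hγ
      exact (DUA_E_ia _ _).symm.trans hγ

end Pool.Agent.H547U3
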