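import Pool.Agent.H547U3.Defs

/-!
# Every Boolean function has a circuit
-/

set_option autoImplicit false

namespace Pool.Agent.H547U3

open Pool.Agent.H547R6 Pool.Agent.H547R7 Pool.Agent.H547R8 Pool.Agent.NPC Pool.Agent.H547S1

theorem EXC_left {n : ℕ} (l1 l2 : List (BF n)) {a : BF n} (h : Avail l1 a) :
    Avail (l1 ++ l2) a := by
  rcases h with h | h
  · exact Or.inl (List.mem_append_left _ h)
  · exact Or.inr h

theorem EXC_right {n : ℕ} (l1 l2 : List (BF n)) {a : BF n} (h : Avail l2 a) :
    Avail (l1 ++ l2) a := by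
  rcases h with h | h
  · exact Or.inl (List.mem_append_right _ h)
  · exact Or.inr h

theorem EXC_app {n s2 : ℕ} {l2 : List (BF n)} (h2 : AON n s2 l2) {s1 : ℕ} {l1 : List (BF n)}
    (h1 : AON n s1 l1) : AON n (s1 + s2) (l1 ++ l2) := by
  induction h1 with
  | nil => simpa using h2
  | not s l a _ ha ih => exact AON.not _ _ _ ih (EXC_left _ _ ha)
  | and s l a b _ ha hb ih =>
    have h := AON.and _ _ _ _ ih (EXC_left l l2 ha) (EXC_left l l2 hb)
    rw [show s + 1 + s2 = s + s2 + 1 by omega]
    exact h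
  | or s l a b _ ha hb ih =>
    have h := AON.or _ _ _ _ ih (EXC_left l l2 ha) (EXC_left l l2 hb)
    rw [show s + 1 + s2 = s + s2 + 1 by omega]
    exact h

/-- functions with a circuit -/
def EXC_P {n : ℕ} (C : BF n) : Prop := ∃ s l, AON n s l ∧ Avail l C

theorem EXC_var {n : ℕ} (i : Fin n) : EXC_P (fun x : Fin n → Bool => x i) :=
  ⟨0, [], AON.nil, Or.inr ⟨i, rfl⟩⟩

theorem EXC_not {n : ℕ} {a : BF n} (h : EXC_P a) : EXC_P (fun x => !a x) := by
  obtain ⟨s, l, h1, h2⟩ := h
  exact ⟨s, _, AON.not s l a h1 h2, Or.inl (List.mem_cons_self ..)⟩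

theorem EXC_and {n : ℕ} {a b : BF n} (ha : EXC_P a) (hb : EXC_P b) :
    EXC_P (fun x => a x && b x) := by
  obtain ⟨s1, l1, h1, h2⟩ := ha
  obtain ⟨s2, l2, h3, h4⟩ := hb
  exact ⟨_, _, AON.and _ _ a b (EXC_app h3 h1) (EXC_left _ _ h2) (EXC_right _ _ h4),
    Or.inl (List.mem_cons_self ..)⟩

theorem EXC_or {n : ℕ} {a b : BF n} (ha : EXC_P a) (hb : EXC_P b) :
    EXC_P (fun x => a x || b x) := by
  obtain ⟨s1, l1, h1, h2⟩ := ha
  obtain ⟨s2, l2, h3, h4⟩ := hb
  exact ⟨_, _, AON.or _ _ a b (EXC_app h3 h1) (EXC_left _ _ h2) (EXC_right _ _ h4),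
    Or.inl (List.mem_cons_self ..)⟩

theorem EXC_false {n : ℕ} (hn : 1 ≤ n) : EXC_P (fun _ : Fin n → Bool => false) := by
  have h := EXC_and (EXC_var (n := n) ⟨0, hn⟩) (EXC_not (EXC_var (n := n) ⟨0, hn⟩))
  have e : (fun x : Fin n → Bool => x ⟨0, hn⟩ && !x ⟨0, hn⟩) = fun _ => false := by
    funext x
    cases x ⟨0, hn⟩ <;> rfl
  rwa [e] at h

theorem EXC_true {n : ℕ} (hn : 1 ≤ n) : EXC_P (fun _ : Fin n → Bool => true) :=
  EXC_not (EXC_false hn)

theorem EXC_point {n : ℕ} (hn : 1 ≤ n) (y : Fin n → Bool) (T : Finset (Fin n)) :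
    EXC_P (fun x : Fin n → Bool => decide (∀ i ∈ T, x i = y i)) := by
  classical
  induction T using Finset.induction_on with
  | empty =>
    have e : (fun x : Fin n → Bool => decide (∀ i ∈ (∅ : Finset (Fin n)), x i = y i)) =
        fun _ => true := by
      funext x
      simp
    rw [e]
    exact EXC_true hn
  | insert i T _ ih =>
    have h1 : EXC_P (fun x : Fin n → Bool => decide (x i = y i)) := by
      cases hy : y i
      · have e : (fun x : Fin n → Bool => decide (x i = false)) = fun x => !x i := by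
          funext x
          cases x i <;> rfl
        rw [e]
        exact EXC_not (EXC_var i)
      · have e : (fun x : Fin n → Bool => decide (x i = true)) = fun x => x i := by
          funext x
          cases x i <;> rfl
        rw [e]
        exact EXC_var i
    have e : (fun x : Fin n → Bool => decide (∀ j ∈ insert i T, x j = y j)) =
        fun x => decide (x i = y i) && decide (∀ j ∈ T, x j = y j) := by
      funext x
      simp [Bool.decide_and]
    rw [e]
    exact EXC_and h1 ih

theorem EXC_set {n : ℕ} (hn : 1 ≤ n) (S : Finset (Fin n → Bool)) :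
    EXC_P (fun x : Fin n → Bool => decide (x ∈ S)) := by
  classical
  induction S using Finset.induction_on with
  | empty =>
    have e : (fun x : Fin n → Bool => decide (x ∈ (∅ : Finset (Fin n → Bool)))) =
        fun _ => false := by
      funext x
      simp
    rw [e]
    exact EXC_false hn
  | insert y S _ ih =>
    have e : (fun x : Fin n → Bool => decide (x ∈ insert y S)) =
        fun x => decide (∀ i ∈ (Finset.univ : Finset (Fin n)), x i = y i) || decide (x ∈ S) := by
      funext x
      rw [← Bool.decide_or]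
      congr 1
      rw [Finset.mem_insert, funext_iff]
      simp
    rw [e]
    exact EXC_or (EXC_point hn y _) ih

theorem x_EXC : X_EXC := by
  intro n C hn
  have h := EXC_set hn (Finset.univ.filter fun x => C x = true)
  have e : (fun x : Fin n → Bool => decide (x ∈ Finset.univ.filter fun x => C x = true)) = C := by
    funext x
    simp
  rw [e] at h
  obtain ⟨s, l, h1, h2⟩ := h
  exact ⟨s, l, s, h1, le_rfl, h2⟩

end Pool.Agent.H547U3
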