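import Pool.Agent.H547U3.Defs
import Pool.Agent.H547R9.T_REN
import Pool.Agent.H547S1.T_GL3

/-!
# Monotone automata: guesses are useless
-/

set_option autoImplicit false

namespace Pool.Agent.H547U3

open Pool.Agent.H547R6 Pool.Agent.H547R7 Pool.Agent.H547R8 Pool.Agent.NPC Pool.Agent.H547S1

/-- append an extra bit that is one -/
def MON_e {k : ℕ} (c : Fin (k + 1) → Bool) : Fin (k + 1 + 1) → Bool :=
  Fin.snoc (α := fun _ => Bool) c true

theorem MON_e_cs {k : ℕ} (c : Fin (k + 1) → Bool) (i : Fin (k + 1)) :
    MON_e c i.castSucc = c i := by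
  unfold MON_e
  rw [Fin.snoc_castSucc]

theorem MON_e_last {k : ℕ} (c : Fin (k + 1) → Bool) : MON_e c (Fin.last (k + 1)) = true := by
  unfold MON_e
  rw [Fin.snoc_last]

/-- the index of the extra bit of the middle cell -/
def MON_m (k : ℕ) : Fin ((k + 1 + 1) + (k + 1 + 1) + (k + 1 + 1) + 0) :=
  Fin.castAdd 0 (Fin.castAdd (k + 1 + 1) (Fin.natAdd (k + 1 + 1) (Fin.last (k + 1))))

/-- the renaming of the inputs of the rules -/
def MON_s (k g : ℕ) : Fin ((k + 1) + (k + 1) + (k + 1) + g) →
    Fin ((k + 1 + 1) + (k + 1 + 1) + (k + 1 + 1) + 0) :=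
  Fin.append (Fin.append (Fin.append
    (fun i => Fin.castAdd 0 (Fin.castAdd (k + 1 + 1) (Fin.castAdd (k + 1 + 1) i.castSucc)))
    (fun i => Fin.castAdd 0 (Fin.castAdd (k + 1 + 1) (Fin.natAdd (k + 1 + 1) i.castSucc))))
    (fun i => Fin.castAdd 0 (Fin.natAdd ((k + 1 + 1) + (k + 1 + 1)) i.castSucc)))
    (fun _ => MON_m k)

theorem MON_mid {k : ℕ} (L M R : Fin (k + 1) → Bool) (G : Fin 0 → Bool) :
    Fin.append (Fin.append (Fin.append (MON_e L) (MON_e M)) (MON_e R)) G (MON_m k) = true := by
  unfold MON_m
  rw [Fin.append_left, Fin.append_left, Fin.append_right, MON_e_last]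

theorem MON_key {k : ℕ} (g : ℕ) (L M R : Fin (k + 1) → Bool) (G : Fin 0 → Bool) :
    (fun q => Fin.append (Fin.append (Fin.append (MON_e L) (MON_e M)) (MON_e R)) G
      (MON_s k g q)) =
    Fin.append (Fin.append (Fin.append L M) R) (fun _ : Fin g => true) := by
  funext q
  unfold MON_s
  induction q using Fin.addCases with
  | left q =>
    rw [Fin.append_left, Fin.append_left]
    induction q using Fin.addCases with
    | left q =>
      rw [Fin.append_left, Fin.append_left]
      induction q using Fin.addCases with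
      | left q =>
        rw [Fin.append_left, Fin.append_left, Fin.append_left, Fin.append_left, Fin.append_left,
          MON_e_cs]
      | right q =>
        rw [Fin.append_right, Fin.append_right, Fin.append_left, Fin.append_left,
          Fin.append_right, MON_e_cs]
    | right q =>
      rw [Fin.append_right, Fin.append_right, Fin.append_left, Fin.append_right, MON_e_cs]
  | right q =>
    rw [Fin.append_right, Fin.append_right, MON_mid]

/-- the rules of the deterministic automaton -/
def MON_r (A : CA) : Fin (A.k + 1 + 1) →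
    BF ((A.k + 1 + 1) + (A.k + 1 + 1) + (A.k + 1 + 1) + 0) :=
  Fin.snoc (α := fun _ => BF ((A.k + 1 + 1) + (A.k + 1 + 1) + (A.k + 1 + 1) + 0))
    (fun i z => A.rule i fun q => z (MON_s A.k A.g q)) (fun z => z (MON_m A.k))

theorem MON_r_last (A : CA) : MON_r A (Fin.last (A.k + 1)) = fun z => z (MON_m A.k) := by
  unfold MON_r
  rw [Fin.snoc_last]

theorem MON_r_cs (A : CA) (i : Fin (A.k + 1)) :
    MON_r A i.castSucc = fun z => A.rule i fun q => z (MON_s A.k A.g q) := by
  unfold MON_r
  rw [Fin.snoc_castSucc]

/-- the deterministic automaton -/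
def MON_A (A : CA) : CA where
  k := A.k + 1
  g := 0
  rule := MON_r A
  enc b := MON_e (A.enc b)
  blank := MON_e A.blank
  lb := MON_e A.lb
  rb := MON_e A.rb

theorem MON_over {B : Set BFun} {A : CA} (h : A.Over B) : (MON_A A).Over B := by
  have key : ∀ i : Fin (A.k + 1 + 1), ∃ s, Computes B _ s (MON_r A i) := by
    intro i
    induction i using Fin.lastCases with
    | last =>
      rw [MON_r_last]
      exact ⟨0, [], Gates.nil, le_refl _, Or.inr ⟨MON_m A.k, rfl⟩⟩
    | cast i =>
      obtain ⟨s, hs⟩ := h i
      rw [MON_r_cs]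
      exact ⟨s, Pool.Agent.H547R9.t_REN.1 B _ _ s (MON_s A.k A.g) _ hs⟩
  exact key

theorem MON_step (A : CA) (m : ℕ) (γ : ℕ → Fin 0 → Bool) (c : ℕ → Fin (A.k + 1) → Bool)
    (p : ℕ) : (MON_A A).step m γ (fun p => MON_e (c p)) p =
      MON_e (A.step m (fun _ _ => true) c p) := by
  have hL : (if p = 0 then MON_e A.lb else MON_e (c (p - 1))) =
      MON_e (if p = 0 then A.lb else c (p - 1)) := by split_ifs <;> rfl
  have hR : (if p + 1 < m then MON_e (c (p + 1)) else MON_e A.rb) =
      MON_e (if p + 1 < m then c (p + 1) else A.rb) := by split_ifs <;> rfl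
  have key : ∀ i : Fin (A.k + 1 + 1), MON_r A i
      (Fin.append (Fin.append (Fin.append (if p = 0 then MON_e A.lb else MON_e (c (p - 1)))
        (MON_e (c p))) (if p + 1 < m then MON_e (c (p + 1)) else MON_e A.rb)) (γ p)) =
      MON_e (A.step m (fun _ _ => true) c p) i := by
    intro i
    rw [hL, hR]
    induction i using Fin.lastCases with
    | last =>
      rw [MON_e_last, MON_r_last]
      exact MON_mid _ _ _ _
    | cast i =>
      rw [MON_e_cs, MON_r_cs]
      have h4 := MON_key A.g (if p = 0 then A.lb else c (p - 1)) (c p)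
        (if p + 1 < m then c (p + 1) else A.rb) (γ p)
      exact congrArg (A.rule i) h4
  exact funext key

theorem MON_run (A : CA) (m : ℕ) (w : List Bool) (γ : ℕ → ℕ → Fin 0 → Bool) (t : ℕ) :
    (MON_A A).run m w γ t = fun p => MON_e (A.run m w (fun _ _ _ => true) t p) := by
  induction t with
  | zero =>
    funext p
    show (MON_A A).init w p = MON_e (A.init w p)
    unfold CA.init
    cases w[p]? <;> rfl
  | succ t ih =>
    funext p
    show (MON_A A).step m (γ t) ((MON_A A).run m w γ t) p =
      MON_e (A.step m (fun _ _ => true) (A.run m w (fun _ _ _ => true) t) p)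
    rw [ih]
    exact MON_step A m (γ t) _ p

theorem MON_mono {B : Set BFun} (hB : B ⊆ Mon) {A : CA} (h : A.Over B) (m : ℕ) (w : List Bool)
    (γ : ℕ → ℕ → Fin A.g → Bool) (t : ℕ) : ∀ p i, A.run m w γ t p i = true →
      A.run m w (fun _ _ _ => true) t p i = true := by
  induction t with
  | zero => exact fun p i hp => hp
  | succ t ih =>
    intro p i hp
    obtain ⟨s, hs⟩ := h i
    have h1 := t_GL3 B Mon (by simp) hB _ s _ hs
    refine h1 _ _ ?_ hp
    intro q
    induction q using Fin.addCases with
    | left q =>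
      rw [Fin.append_left, Fin.append_left]
      induction q using Fin.addCases with
      | left q =>
        rw [Fin.append_left, Fin.append_left]
        induction q using Fin.addCases with
        | left q =>
          rw [Fin.append_left, Fin.append_left]
          split_ifs
          · exact id
          · exact ih _ _
        | right q =>
          rw [Fin.append_right, Fin.append_right]
          exact ih _ _
      | right q =>
        rw [Fin.append_right, Fin.append_right]
        split_ifs
        · exact ih _ _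
        · exact id
    | right q =>
      rw [Fin.append_right, Fin.append_right]
      exact fun _ => rfl

theorem MON_acc (A : CA) (m : ℕ) (w : List Bool) (γ : ℕ → ℕ → Fin 0 → Bool) (t : ℕ) :
    (MON_A A).run m w γ t 0 0 = A.run m w (fun _ _ _ => true) t 0 0 := by
  rw [MON_run]
  exact MON_e_cs (A.run m w (fun _ _ _ => true) t 0) 0

theorem x_MON : X_MON := by
  intro B hB S T L hL
  obtain ⟨A, hA, hw⟩ := hL
  refine ⟨MON_A A, rfl, MON_over hA, fun w => (hw w).trans ?_⟩
  unfold CA.Acc
  constructor
  · rintro ⟨t, ht, γ, hγ⟩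
    exact ⟨t, ht, fun _ _ i => i.elim0, (MON_acc A _ w _ t).trans (MON_mono hB hA _ w γ t 0 0 hγ)⟩
  · rintro ⟨t, ht, γ, hγ⟩
    exact ⟨t, ht, fun _ _ _ => true, (MON_acc A _ w γ t).symm.trans hγ⟩

end Pool.Agent.H547U3
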