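import Pool.Agent.H547U3.Defs
import Pool.Agent.H547S1.T_GDC
import Pool.Agent.H547R9.T_REN

/-!
# Nondeterministic cellular automata over non-monotone gates
-/

set_option autoImplicit false

namespace Pool.Agent.H547U3

open Pool.Agent.H547R6 Pool.Agent.H547R7 Pool.Agent.H547R8 Pool.Agent.NPC Pool.Agent.H547S1

theorem NON_append {m n : ℕ} {α β : Type} (f : α → β) (u : Fin m → α) (v : Fin n → α) :
    (fun i => f (Fin.append u v i)) = Fin.append (fun i => f (u i)) (fun i => f (v i)) := by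
  funext i
  refine Fin.addCases (fun j => ?_) (fun j => ?_) i
  · rw [Fin.append_left, Fin.append_left]
  · rw [Fin.append_right, Fin.append_right]

/-- the state with two constant bits -/
def NON_ext {k : ℕ} (a : Fin (k + 1) → Bool) : Fin (k + 2 + 1) → Bool := fun i =>
  if h : i.val < k + 1 then a ⟨i.val, h⟩ else decide (i.val = k + 2)

/-- index of a bit -/
def NON_up {k : ℕ} (j : Fin (k + 1)) : Fin (k + 2 + 1) := ⟨j.val, by omega⟩

theorem NON_ext_up {k : ℕ} (a : Fin (k + 1) → Bool) (j : Fin (k + 1)) :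
    NON_ext a (NON_up j) = a j := by
  unfold NON_ext NON_up
  simp [j.2]

/-- positions in the middle cell -/
def NON_mid {k : ℕ} (g : ℕ) (j : Fin (k + 2 + 1)) :
    Fin ((k + 2 + 1) + (k + 2 + 1) + (k + 2 + 1) + g) :=
  Fin.castAdd g (Fin.castAdd (k + 2 + 1) (Fin.natAdd (k + 2 + 1) j))

/-- positions of the old variables -/
def NON_emb (k g : ℕ) :
    Fin ((k + 1) + (k + 1) + (k + 1) + g) → Fin ((k + 2 + 1) + (k + 2 + 1) + (k + 2 + 1) + g) :=
  Fin.append (Fin.append (Fin.append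
    (fun j => Fin.castAdd g (Fin.castAdd (k + 2 + 1) (Fin.castAdd (k + 2 + 1) (NON_up j))))
    (fun j => Fin.castAdd g (Fin.castAdd (k + 2 + 1) (Fin.natAdd (k + 2 + 1) (NON_up j)))))
    (fun j => Fin.castAdd g (Fin.natAdd (k + 2 + 1 + (k + 2 + 1)) (NON_up j))))
    (fun j => Fin.natAdd (k + 2 + 1 + (k + 2 + 1) + (k + 2 + 1)) j)

/-- the vector of all variables -/
def NON_z {k g : ℕ} (a b c : Fin (k + 2 + 1) → Bool) (γ : Fin g → Bool) :
    Fin ((k + 2 + 1) + (k + 2 + 1) + (k + 2 + 1) + g) → Bool :=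
  Fin.append (Fin.append (Fin.append a b) c) γ

theorem NON_z_mid {k g : ℕ} (a b c : Fin (k + 2 + 1) → Bool) (γ : Fin g → Bool)
    (j : Fin (k + 2 + 1)) : NON_z a b c γ (NON_mid g j) = b j := by
  unfold NON_z NON_mid
  rw [Fin.append_left, Fin.append_left, Fin.append_right]

theorem NON_z_emb {k g : ℕ} (a b c : Fin (k + 1) → Bool) (γ : Fin g → Bool) :
    (fun j => NON_z (NON_ext a) (NON_ext b) (NON_ext c) γ (NON_emb k g j)) =
      Fin.append (Fin.append (Fin.append a b) c) γ := by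
  unfold NON_emb
  rw [NON_append, NON_append, NON_append]
  unfold NON_z
  simp only [Fin.append_left, Fin.append_right, NON_ext_up]

/-- the local rule over `B` -/
def NON_rule (τ : Fin 3) (A : CA) (i : Fin (A.k + 2 + 1)) :
    BF ((A.k + 2 + 1) + (A.k + 2 + 1) + (A.k + 2 + 1) + A.g) :=
  if h : i.val < A.k + 1 then
      (fun z => Tf τ (z (NON_mid A.g ⟨A.k + 1, by omega⟩)) (z (NON_mid A.g ⟨A.k + 2, by omega⟩))
        (A.rule ⟨i.val, h⟩ fun j => z (NON_emb A.k A.g j))
        (A.rule ⟨i.val, h⟩ fun j => !z (NON_emb A.k A.g j)))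
    else fun z => z (NON_mid A.g i)

/-- the automaton over `B` -/
def NON_A (τ : Fin 3) (A : CA) : CA where
  k := A.k + 2
  g := A.g
  rule := NON_rule τ A
  enc := fun b => NON_ext (A.enc b)
  blank := NON_ext A.blank
  lb := NON_ext A.lb
  rb := NON_ext A.rb

theorem NON_Tf (τ : Fin 3) (c c' : Bool) : Tf τ false true c c' = c := by
  unfold Tf
  fin_cases τ <;> cases c <;> cases c' <;> rfl

theorem NON_rule_z (τ : Fin 3) (A : CA) (i : Fin (A.k + 2 + 1)) (a b c : Fin (A.k + 1) → Bool)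
    (γ : Fin A.g → Bool) :
    NON_rule τ A i (NON_z (NON_ext a) (NON_ext b) (NON_ext c) γ) =
      NON_ext (fun i => A.rule i (Fin.append (Fin.append (Fin.append a b) c) γ)) i := by
  by_cases h : i.val < A.k + 1
  · unfold NON_rule
    rw [dif_pos h]
    simp only [NON_z_mid]
    have e2 : NON_ext b ⟨A.k + 1, by omega⟩ = false := by
      unfold NON_ext
      simp
    have e3 : NON_ext b ⟨A.k + 2, by omega⟩ = true := by
      unfold NON_ext
      simp
    rw [e2, e3, NON_Tf, NON_z_emb]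
    unfold NON_ext
    rw [dif_pos h]
  · unfold NON_rule
    rw [dif_neg h]
    simp only [NON_z_mid]
    unfold NON_ext
    rw [dif_neg h, dif_neg h]

theorem NON_step (τ : Fin 3) (A : CA) (m : ℕ) (γ : ℕ → Fin A.g → Bool)
    (c : ℕ → Fin (A.k + 1) → Bool) (p : ℕ) :
    (NON_A τ A).step m γ (fun p => NON_ext (c p)) p = NON_ext (A.step m γ c p) := by
  have e4 : (if p = 0 then NON_ext A.lb else NON_ext (c (p - 1))) =
      NON_ext (if p = 0 then A.lb else c (p - 1)) := by split_ifs <;> rfl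
  have e5 : (if p + 1 < m then NON_ext (c (p + 1)) else NON_ext A.rb) =
      NON_ext (if p + 1 < m then c (p + 1) else A.rb) := by split_ifs <;> rfl
  have key : ∀ i : Fin (A.k + 2 + 1), NON_rule τ A i (NON_z
      (if p = 0 then NON_ext A.lb else NON_ext (c (p - 1))) (NON_ext (c p))
      (if p + 1 < m then NON_ext (c (p + 1)) else NON_ext A.rb) (γ p)) =
      NON_ext (A.step m γ c p) i := by
    intro i
    rw [e4, e5, NON_rule_z]
    rfl
  exact funext key

theorem NON_run (τ : Fin 3) (A : CA) (m : ℕ) (w : List Bool) (γ : ℕ → ℕ → Fin A.g → Bool)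
    (t : ℕ) : (NON_A τ A).run m w γ t = fun p => NON_ext (A.run m w γ t p) := by
  induction t with
  | zero =>
    funext p
    show (w[p]?).elim (NON_A τ A).blank (NON_A τ A).enc = NON_ext ((w[p]?).elim A.blank A.enc)
    cases w[p]? <;> rfl
  | succ t ih =>
    funext p
    show (NON_A τ A).step m (γ t) ((NON_A τ A).run m w γ t) p = _
    rw [ih, NON_step]
    rfl

theorem NON_acc (τ : Fin 3) (A : CA) (m : ℕ) (T : ℕ∞) (w : List Bool) :
    (NON_A τ A).Acc m T w ↔ A.Acc m T w := by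
  have h0 : ∀ (γ : ℕ → ℕ → Fin A.g → Bool) (t : ℕ),
      (NON_A τ A).run m w γ t 0 0 = A.run m w γ t 0 0 := by
    intro γ t
    rw [NON_run]
    show NON_ext (A.run m w γ t 0) (NON_up 0) = _
    rw [NON_ext_up]
  constructor
  · rintro ⟨t, ht, γ, h⟩
    exact ⟨t, ht, γ, by rw [← h0 γ t]; exact h⟩
  · rintro ⟨t, ht, γ, h⟩
    exact ⟨t, ht, γ, by rw [h0 γ t]; exact h⟩

theorem NON_over (hE : X_EXC) (B : Set BFun) (τ : Fin 3) (hB : Op3 B (Gt τ)) (A : CA) :
    (NON_A τ A).Over B := by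
  obtain ⟨c, hc⟩ := t_GDC B τ hB
  have key : ∀ i : Fin (A.k + 2 + 1), ∃ s, Computes B _ s (NON_rule τ A i) := by
    intro i
    by_cases h : i.val < A.k + 1
    · obtain ⟨s, hs⟩ := hE _ (A.rule ⟨i.val, h⟩) (by omega)
      have h1 := hc _ _ _ hs
      have h2 := Pool.Agent.H547R9.t_REN.1 B _
        ((A.k + 2 + 1) + (A.k + 2 + 1) + (A.k + 2 + 1) + A.g) _
        (Fin.cons (NON_mid A.g ⟨A.k + 1, by omega⟩) (Fin.cons (NON_mid A.g ⟨A.k + 2, by omega⟩)
          (NON_emb A.k A.g))) _ h1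
      refine ⟨c * (s + (A.k + 1 + (A.k + 1) + (A.k + 1) + A.g) + 1), ?_⟩
      unfold NON_rule
      rw [dif_pos h]
      exact h2
    · refine ⟨0, ?_⟩
      unfold NON_rule
      rw [dif_neg h]
      exact ⟨[], Gates.nil, le_rfl, Or.inr ⟨NON_mid A.g i, rfl⟩⟩
  exact key

theorem x_NON (h : X_EXC) : X_NON := by
  intro B τ hB S T L hL
  obtain ⟨A, -, hA⟩ := hL
  refine ⟨NON_A τ A, NON_over h B τ hB A, fun w => ?_⟩
  rw [hA w, NON_acc]

end Pool.Agent.H547U3
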