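import Pool.Agent.H547U3.Defs

/-! X_SUB: trivial inclusions (helper240). -/

set_option autoImplicit false

namespace Pool.Agent.H547U3

open Pool.Agent.H547R6 Pool.Agent.H547R7 Pool.Agent.H547R8 Pool.Agent.NPC Pool.Agent.H547S1

theorem SUB_gates {B B' : Set BFun} (h : B ⊆ B') {n : ℕ} {l : List (BF n)} (hl : Gates B n l) :
    Gates B' n l := by
  induction hl with
  | nil => exact Gates.nil
  | gate l k f g hf hg _ ih => exact Gates.gate l k f g (h hf) hg ih

theorem SUB_over {B B' : Set BFun} (h : B ⊆ B') {A : CA} (hA : A.Over B) : A.Over B' := by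
  intro i
  obtain ⟨s, l, h1, h2, h3⟩ := hA i
  exact ⟨s, l, SUB_gates h h1, h2, h3⟩

theorem x_SUB : X_SUB := by
  intro B B' h S T
  refine ⟨?_, ?_, ?_⟩
  · rintro L ⟨A, h0, h1, h2⟩
    exact ⟨A, h0, SUB_over h h1, h2⟩
  · rintro L ⟨A, h1, h2⟩
    exact ⟨A, SUB_over h h1, h2⟩
  · rintro L ⟨A, _, h1, h2⟩
    exact ⟨A, h1, h2⟩

end Pool.Agent.H547U3
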