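import Pool.Agent.H547U3.Defs
import Pool.Agent.H547U3.T_DUA
import Pool.Agent.H547U3.T_EXC
import Pool.Agent.H547U3.T_MON
import Pool.Agent.H547U3.T_NON
import Pool.Agent.H547U3.T_SUB
import Pool.Agent.H547S1.Asm
import Pool.Agent.H547S1.T_C5

namespace Pool.Agent.H547U3

open Pool.Agent.H547R6 Pool.Agent.H547R7 Pool.Agent.H547R8 Pool.Agent.H547R9 Pool.Agent.NPC
open Pool.Agent.H547S1

theorem nd_mon (B : Set BFun) (hM : B ⊆ Mon) (S : ℕ → ℕ) (T : ℕ → ℕ∞) :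
    NCA B S T = DCA B S T :=
  Set.Subset.antisymm (x_MON B hM S T) (x_SUB B B subset_rfl S T).2.2

theorem det_all (B : Set BFun) (hA : ¬ B ⊆ Aff) (hC : ¬ B ⊆ Conj) (hD : ¬ B ⊆ Disj)
    (S : ℕ → ℕ) (T : ℕ → ℕ∞) : DCA B S T = DCA Set.univ S T := by
  obtain ⟨τ, hτ⟩ := t_C5 B hA hC hD
  exact Set.Subset.antisymm (x_SUB B Set.univ (Set.subset_univ B) S T).1
    (x_DUA x_EXC B τ hτ S T)

theorem nd_all (B : Set BFun) (hM : ¬ B ⊆ Mon) (hA : ¬ B ⊆ Aff)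
    (S : ℕ → ℕ) (T : ℕ → ℕ∞) : NCA B S T = NCA Set.univ S T := by
  obtain ⟨τ, hτ⟩ := gt_of hM hA
  exact Set.Subset.antisymm (x_SUB B Set.univ (Set.subset_univ B) S T).2.1
    (x_NON x_EXC B τ hτ S T)

end Pool.Agent.H547U3
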