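import Pool.Agent.H547S1.Stm

/-!
# Cellular automata over sets of Boolean functions: definitions and statements
-/

set_option autoImplicit false

namespace Pool.Agent.H547U3

open Pool.Agent.H547R6 Pool.Agent.H547R7 Pool.Agent.H547R8 Pool.Agent.NPC Pool.Agent.H547S1

/-- A nondeterministic one-dimensional cellular automaton with `k + 1` bits per cell: bit `i` of
the next state of a cell is `rule i` of the states of its left neighbour, of the cell and of its
right neighbour and of `g` guessed bits. -/
structure CA where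
  /-- number of bits of a cell, minus one -/
  k : ℕ
  /-- number of guessed bits per cell and step -/
  g : ℕ
  /-- the local rule -/
  rule : Fin (k + 1) → BF ((k + 1) + (k + 1) + (k + 1) + g)
  /-- initial states for the bits of the input -/
  enc : Bool → Fin (k + 1) → Bool
  /-- initial state of the other cells -/
  blank : Fin (k + 1) → Bool
  /-- state shown at the left end -/
  lb : Fin (k + 1) → Bool
  /-- state shown at the right end -/
  rb : Fin (k + 1) → Bool

/-- initial configuration -/
def CA.init (A : CA) (w : List Bool) (p : ℕ) : Fin (A.k + 1) → Bool :=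
  (w[p]?).elim A.blank A.enc

/-- one step on the cells `0, …, m - 1`, with the guesses `γ` -/
def CA.step (A : CA) (m : ℕ) (γ : ℕ → Fin A.g → Bool) (c : ℕ → Fin (A.k + 1) → Bool) (p : ℕ) :
    Fin (A.k + 1) → Bool := fun i =>
  A.rule i (Fin.append (Fin.append (Fin.append (if p = 0 then A.lb else c (p - 1)) (c p))
    (if p + 1 < m then c (p + 1) else A.rb)) (γ p))

/-- the configuration after `t` steps -/
def CA.run (A : CA) (m : ℕ) (w : List Bool) (γ : ℕ → ℕ → Fin A.g → Bool) :
    ℕ → ℕ → Fin (A.k + 1) → Bool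
  | 0 => A.init w
  | t + 1 => A.step m (γ t) (A.run m w γ t)

/-- acceptance on `m` cells within `T` steps: for some guesses, the first bit of the first cell is
one at some time `t ≤ T` -/
def CA.Acc (A : CA) (m : ℕ) (T : ℕ∞) (w : List Bool) : Prop :=
  ∃ t : ℕ, (t : ℕ∞) ≤ T ∧ ∃ γ, A.run m w γ t 0 0 = true

/-- each bit of the local rule is computed by a circuit over `B` -/
def CA.Over (A : CA) (B : Set BFun) : Prop := ∀ i, ∃ s, Computes B _ s (A.rule i)

/-- languages of nondeterministic cellular automata over `B` with `S n` cells in time `T n` -/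
def NCA (B : Set BFun) (S : ℕ → ℕ) (T : ℕ → ℕ∞) : Set (Set (List Bool)) :=
  {L | ∃ A : CA, A.Over B ∧ ∀ w, w ∈ L ↔ A.Acc (S w.length) (T w.length) w}

/-- languages of deterministic cellular automata (`g = 0`) over `B` with `S n` cells in time
`T n` -/
def DCA (B : Set BFun) (S : ℕ → ℕ) (T : ℕ → ℕ∞) : Set (Set (List Bool)) :=
  {L | ∃ A : CA, A.g = 0 ∧ A.Over B ∧ ∀ w, w ∈ L ↔ A.Acc (S w.length) (T w.length) w}

/-! ### statements of the tasks -/

/-- every function has a circuit -/
def X_EXC : Prop := ∀ (n : ℕ) (C : BF n), 1 ≤ n → ∃ s, Comp0 n s C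

/-- monotone automata: guesses are useless -/
def X_MON : Prop := ∀ B : Set BFun, B ⊆ Mon → ∀ S T, NCA B S T ⊆ DCA B S T

/-- deterministic automata can be made monotone -/
def X_DUA : Prop := ∀ (B : Set BFun) (τ : Fin 3), Op3 B (Gm τ) → ∀ S T,
  DCA Set.univ S T ⊆ DCA B S T

/-- nondeterministic automata over non-monotone gates -/
def X_NON : Prop := ∀ (B : Set BFun) (τ : Fin 3), Op3 B (Gt τ) → ∀ S T,
  NCA Set.univ S T ⊆ NCA B S T

/-- trivial inclusions -/
def X_SUB : Prop := ∀ (B B' : Set BFun), B ⊆ B' → ∀ S T,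
  DCA B S T ⊆ DCA B' S T ∧ NCA B S T ⊆ NCA B' S T ∧ DCA B S T ⊆ NCA B S T

end Pool.Agent.H547U3
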